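import Mathlib

/-!
# Inversions of oriented graphs: vectors over the field with two elements
-/

set_option autoImplicit false

open Finset

namespace Pool.Agent.K4H77.DJ

/-- the standard bilinear form -/
def dot {k : ℕ} (x y : Fin k → ZMod 2) : ZMod 2 := ∑ i, x i * y i

/-- the vector of a vertex with respect to a family of sets -/
noncomputable def vec {V : Type*} {k : ℕ} (X : Fin k → Set V) (v : V) : Fin k → ZMod 2 := by
  classical
  exact fun i => if v ∈ X i then 1 else 0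

lemma dot_comm {k : ℕ} (x y : Fin k → ZMod 2) : dot x y = dot y x := by
  unfold dot
  exact Finset.sum_congr rfl fun i _ => mul_comm _ _

lemma dot_sub {k : ℕ} (x y z : Fin k → ZMod 2) : dot (x - y) z = dot x z - dot y z := by
  unfold dot
  rw [← Finset.sum_sub_distrib]
  exact Finset.sum_congr rfl fun i _ => by rw [Pi.sub_apply, sub_mul]

lemma card_eq {V : Type*} {k : ℕ} (X : Fin k → Set V) (a b : V) :
    ((Nat.card {i : Fin k // a ∈ X i ∧ b ∈ X i} : ℕ) : ZMod 2) = dot (vec X a) (vec X b) := by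
  classical
  rw [Nat.card_eq_fintype_card, Fintype.card_subtype]
  unfold dot vec
  rw [Finset.card_filter, Nat.cast_sum]
  refine Finset.sum_congr rfl fun i _ => ?_
  by_cases h1 : a ∈ X i <;> by_cases h2 : b ∈ X i <;> simp [h1, h2]

lemma even_iff {V : Type*} {k : ℕ} (X : Fin k → Set V) (a b : V) :
    Even (Nat.card {i : Fin k // a ∈ X i ∧ b ∈ X i}) ↔ dot (vec X a) (vec X b) = 0 := by
  rw [← card_eq, ZMod.natCast_eq_zero_iff_even]

lemma odd_iff {V : Type*} {k : ℕ} (X : Fin k → Set V) (a b : V) :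
    Odd (Nat.card {i : Fin k // a ∈ X i ∧ b ∈ X i}) ↔ dot (vec X a) (vec X b) = 1 := by
  rw [← card_eq, ZMod.natCast_eq_one_iff_odd]

/-- the matrix of the isometry -/
def mat (a : Fin 4 → ZMod 2) : Fin 3 → Fin 4 → ZMod 2 :=
  if a = ![1, 0, 0, 0] then ![![0, 1, 0, 0], ![0, 0, 1, 0], ![0, 0, 0, 1]]
  else if a = ![0, 1, 0, 0] then ![![1, 0, 0, 0], ![0, 0, 1, 0], ![0, 0, 0, 1]]
  else if a = ![0, 0, 1, 0] then ![![1, 0, 0, 0], ![0, 1, 0, 0], ![0, 0, 0, 1]]
  else if a = ![0, 0, 0, 1] then ![![1, 0, 0, 0], ![0, 1, 0, 0], ![0, 0, 1, 0]]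
  else if a = ![1, 1, 0, 0] then ![![0, 0, 1, 0], ![0, 0, 0, 1], ![0, 0, 0, 0]]
  else if a = ![1, 0, 1, 0] then ![![0, 1, 0, 0], ![0, 0, 0, 1], ![0, 0, 0, 0]]
  else if a = ![1, 0, 0, 1] then ![![0, 1, 0, 0], ![0, 0, 1, 0], ![0, 0, 0, 0]]
  else if a = ![0, 1, 1, 0] then ![![1, 0, 0, 0], ![0, 0, 0, 1], ![0, 0, 0, 0]]
  else if a = ![0, 1, 0, 1] then ![![1, 0, 0, 0], ![0, 0, 1, 0], ![0, 0, 0, 0]]
  else if a = ![0, 0, 1, 1] then ![![1, 0, 0, 0], ![0, 1, 0, 0], ![0, 0, 0, 0]]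
  else if a = ![0, 1, 1, 1] then ![![1, 1, 0, 0], ![1, 0, 1, 0], ![1, 0, 0, 1]]
  else if a = ![1, 0, 1, 1] then ![![1, 1, 0, 0], ![0, 1, 1, 0], ![0, 1, 0, 1]]
  else if a = ![1, 1, 0, 1] then ![![1, 0, 1, 0], ![0, 1, 1, 0], ![0, 0, 1, 1]]
  else ![![1, 0, 0, 1], ![0, 1, 0, 1], ![0, 0, 1, 1]]

lemma iso (a x y : Fin 4 → ZMod 2) (ha : a ≠ 0) (hx : dot a x = 0) (hy : dot a y = 0) :
    dot (fun i => dot (mat a i) x) (fun i => dot (mat a i) y) = dot x y := by
  have key : ∀ a0 a1 a2 a3 x0 x1 x2 x3 y0 y1 y2 y3 : ZMod 2,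
      (![a0, a1, a2, a3] : Fin 4 → ZMod 2) ≠ 0 →
      dot ![a0, a1, a2, a3] ![x0, x1, x2, x3] = 0 →
      dot ![a0, a1, a2, a3] ![y0, y1, y2, y3] = 0 →
      dot (fun i => dot (mat ![a0, a1, a2, a3] i) ![x0, x1, x2, x3])
        (fun i => dot (mat ![a0, a1, a2, a3] i) ![y0, y1, y2, y3]) =
        dot ![x0, x1, x2, x3] ![y0, y1, y2, y3] := by
    unfold dot mat
    decide +kernel
  have ea : a = ![a 0, a 1, a 2, a 3] := by
    ext i; fin_cases i <;> rfl
  have ex : x = ![x 0, x 1, x 2, x 3] := by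
    ext i; fin_cases i <;> rfl
  have ey : y = ![y 0, y 1, y 2, y 3] := by
    ext i; fin_cases i <;> rfl
  rw [ea, ex, ey]
  rw [ea] at ha
  rw [ea, ex] at hx
  rw [ea, ey] at hy
  exact key _ _ _ _ _ _ _ _ _ _ _ _ ha hx hy

/-- the tournament on seventeen vertices -/
def T (x y : Fin 17) : Prop :=
  (x.val < y.val ∧ ¬ (x.val % 2 = 0 ∧ y.val % 2 = 0)) ∨
    (y.val < x.val ∧ x.val % 2 = 0 ∧ y.val % 2 = 0)

lemma T_asymm (x y : Fin 17) (h : T x y) : ¬ T y x := by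
  unfold T at *
  omega

lemma T_total (x y : Fin 17) (h : x ≠ y) : T x y ∨ T y x := by
  have h' : x.val ≠ y.val := fun e => h (Fin.ext e)
  unfold T
  omega

/-- a colouring of the tournament whose classes are modules without cyclic triangles is
injective -/
lemma inj {α : Type*} (c : Fin 17 → α)
    (h1 : ∀ u u' w, c u = c u' → c w ≠ c u → (T u w ↔ T u' w))
    (h2 : ∀ u w z, c u = c w → c w = c z → T u w → T w z → T z u → False) :
    ∀ u u' : Fin 17, u.val < u'.val → c u = c u' → False := by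
  intro u u' hlt hc
  by_cases hu : u.val % 2 = 0
  · by_cases hu' : u'.val % 2 = 0
    · -- both even
      have hb : u.val + 1 < 17 := by omega
      have t1 : T u ⟨u.val + 1, hb⟩ := by unfold T; simp only; omega
      have t2 : T ⟨u.val + 1, hb⟩ u' := by unfold T; simp only; omega
      have t3 : T u' u := by unfold T; omega
      by_cases e : c ⟨u.val + 1, hb⟩ = c u
      · exact h2 u ⟨u.val + 1, hb⟩ u' e.symm (e.trans hc) t1 t2 t3
      · exact T_asymm _ _ t2 ((h1 u u' _ hc e).1 t1)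
    · -- u even, u' odd
      have t1 : T u u' := Or.inl ⟨hlt, fun h => hu' h.2⟩
      have t2 : T u' ⟨16, by norm_num⟩ :=
        Or.inl ⟨show u'.val < 16 by omega, fun h => hu' h.1⟩
      have t3 : T ⟨16, by norm_num⟩ u := Or.inr ⟨show u.val < 16 by omega, rfl, hu⟩
      by_cases e : c ⟨16, by norm_num⟩ = c u
      · exact h2 u u' _ hc (hc.symm.trans e.symm) t1 t2 t3
      · exact T_asymm _ _ t3 ((h1 u u' _ hc e).2 t2)
  · by_cases hu' : u'.val % 2 = 0
    · -- u odd, u' even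
      have t1 : T ⟨0, by norm_num⟩ u := Or.inl ⟨show 0 < u.val by omega, fun h => hu h.2⟩
      have t2 : T u u' := Or.inl ⟨hlt, fun h => hu h.1⟩
      have t3 : T u' ⟨0, by norm_num⟩ := Or.inr ⟨show 0 < u'.val by omega, hu', rfl⟩
      by_cases e : c ⟨0, by norm_num⟩ = c u
      · exact h2 u u' _ hc (hc.symm.trans e.symm) t2 t3 t1
      · exact T_asymm _ _ t1 ((h1 u u' _ hc e).2 t3)
    · -- both odd
      have hb : u.val + 1 < 17 := by omega
      have t1 : T u ⟨u.val + 1, hb⟩ := by unfold T; simp only; omega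
      have t2 : T ⟨u.val + 1, hb⟩ u' := by unfold T; simp only; omega
      by_cases e : c ⟨u.val + 1, hb⟩ = c u
      · have t3 : T ⟨0, by norm_num⟩ u := Or.inl ⟨show 0 < u.val by omega, fun h => hu h.2⟩
        have t4 : T ⟨u.val + 1, hb⟩ ⟨0, by norm_num⟩ :=
          Or.inr ⟨Nat.succ_pos _, show (u.val + 1) % 2 = 0 by omega, rfl⟩
        by_cases e' : c ⟨0, by norm_num⟩ = c u
        · exact h2 u ⟨u.val + 1, hb⟩ _ e.symm (e.trans e'.symm) t1 t4 t3
        · exact T_asymm _ _ t3 ((h1 u ⟨u.val + 1, hb⟩ _ e.symm e').2 t4)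
      · exact T_asymm _ _ t2 ((h1 u u' _ hc e).1 t1)

end Pool.Agent.K4H77.DJ
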