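import Pool.Agent.K4H77.DJ.Base

/-!
# Inversion number four: one partner on seventeen vertices
-/

set_option autoImplicit false

open Finset

namespace Pool.Agent.K4H77.DJ

/-- the arcs of the dijoin -/
def J {n : ℕ} (r₁ : Fin n → Fin n → Prop) (a b : Fin n ⊕ Fin 17) : Prop :=
  (∃ x y, a = Sum.inl x ∧ b = Sum.inl y ∧ r₁ x y) ∨
    (∃ x y, a = Sum.inr x ∧ b = Sum.inr y ∧ T x y) ∨
    (∃ x y, a = Sum.inl x ∧ b = Sum.inr y)

/-- the arcs after the inversions -/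
def R {n : ℕ} (r₁ : Fin n → Fin n → Prop) (X : Fin 4 → Set (Fin n ⊕ Fin 17))
    (a b : Fin n ⊕ Fin 17) : Prop :=
  (J r₁ a b ∧ Even (Nat.card {i : Fin 4 // a ∈ X i ∧ b ∈ X i})) ∨
    (J r₁ b a ∧ Odd (Nat.card {i : Fin 4 // a ∈ X i ∧ b ∈ X i}))

lemma lift' {α β : Type*} {r : α → α → Prop} {p : β → β → Prop} (f : α → β)
    (h : ∀ a b, r a b → p (f a) (f b)) {a b : α} (hab : Relation.TransGen r a b) :
    Relation.TransGen p (f a) (f b) := by
  induction hab with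
  | single h' => exact Relation.TransGen.single (h _ _ h')
  | tail _ h' ih => exact ih.tail (h _ _ h')

lemma zmod2 (t : ZMod 2) : t = 0 ∨ t = 1 := by
  revert t; decide

section

variable {n : ℕ} {r₁ : Fin n → Fin n → Prop} {X : Fin 4 → Set (Fin n ⊕ Fin 17)}

lemma R_of {a b : Fin n ⊕ Fin 17} (h : J r₁ a b) (h0 : dot (vec X a) (vec X b) = 0) :
    R r₁ X a b := Or.inl ⟨h, (even_iff X a b).2 h0⟩

lemma R_of' {a b : Fin n ⊕ Fin 17} (h : J r₁ b a) (h1 : dot (vec X a) (vec X b) = 1) :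
    R r₁ X a b := Or.inr ⟨h, (odd_iff X a b).2 h1⟩

variable (hX : ∀ v, ¬ Relation.TransGen (R r₁ X) v v)
include hX

lemma cyc3 {a b c : Fin n ⊕ Fin 17} (h1 : R r₁ X a b) (h2 : R r₁ X b c) (h3 : R r₁ X c a) :
    False :=
  hX a (((Relation.TransGen.single h1).tail h2).tail h3)

/-- the vectors of the first graph span -/
lemma spans
    (h3 : ¬ ∃ Y : Fin 3 → Set (Fin n), ∀ v, ¬ Relation.TransGen
      (fun a b => (r₁ a b ∧ Even (Nat.card {i : Fin 3 // a ∈ Y i ∧ b ∈ Y i})) ∨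
        (r₁ b a ∧ Odd (Nat.card {i : Fin 3 // a ∈ Y i ∧ b ∈ Y i}))) v v)
    (a : Fin 4 → ZMod 2) (ha : a ≠ 0) : ∃ v : Fin n, dot a (vec X (Sum.inl v)) ≠ 0 := by
  classical
  by_contra hcon
  push Not at hcon
  apply h3
  refine ⟨fun i => {v | dot (mat a i) (vec X (Sum.inl v)) = 1}, ?_⟩
  intro v hv
  have hvec : ∀ u : Fin n, vec (fun i : Fin 3 => {v : Fin n | dot (mat a i)
      (vec X (Sum.inl v)) = 1}) u = fun i => dot (mat a i) (vec X (Sum.inl u)) := by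
    intro u
    funext i
    unfold vec
    simp only [Set.mem_ofPred_eq]
    split_ifs with h
    · exact h.symm
    · rcases zmod2 (dot (mat a i) (vec X (Sum.inl u))) with h' | h'
      · exact h'.symm
      · exact absurd h' h
  have hdot : ∀ u w : Fin n, dot (vec (fun i : Fin 3 => {v : Fin n | dot (mat a i)
      (vec X (Sum.inl v)) = 1}) u) (vec (fun i : Fin 3 => {v : Fin n | dot (mat a i)
      (vec X (Sum.inl v)) = 1}) w) = dot (vec X (Sum.inl u)) (vec X (Sum.inl w)) := by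
    intro u w
    rw [hvec, hvec]
    exact iso a _ _ ha (hcon u) (hcon w)
  have hstep : ∀ u w : Fin n, ((r₁ u w ∧ Even (Nat.card {i : Fin 3 // u ∈ (fun i : Fin 3 =>
      {v : Fin n | dot (mat a i) (vec X (Sum.inl v)) = 1}) i ∧ w ∈ (fun i : Fin 3 =>
      {v : Fin n | dot (mat a i) (vec X (Sum.inl v)) = 1}) i})) ∨
      (r₁ w u ∧ Odd (Nat.card {i : Fin 3 // u ∈ (fun i : Fin 3 =>
      {v : Fin n | dot (mat a i) (vec X (Sum.inl v)) = 1}) i ∧ w ∈ (fun i : Fin 3 =>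
      {v : Fin n | dot (mat a i) (vec X (Sum.inl v)) = 1}) i}))) →
      R r₁ X (Sum.inl u) (Sum.inl w) := by
    intro u w huw
    rcases huw with ⟨h, he⟩ | ⟨h, ho⟩
    · refine R_of (Or.inl ⟨u, w, rfl, rfl, h⟩) ?_
      rw [even_iff, hdot] at he
      exact he
    · refine R_of' (Or.inl ⟨w, u, rfl, rfl, h⟩) ?_
      rw [odd_iff, hdot] at ho
      exact ho
  exact hX (Sum.inl v) (lift' (Sum.inl : Fin n → Fin n ⊕ Fin 17) hstep hv)

omit hX in
lemma T_zero {u w : Fin 17} (hne : u ≠ w) (hR : ¬ R r₁ X (Sum.inr w) (Sum.inr u)) :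
    T u w ↔ dot (vec X (Sum.inr u)) (vec X (Sum.inr w)) = 0 := by
  constructor
  · intro h
    rcases zmod2 (dot (vec X (Sum.inr u)) (vec X (Sum.inr w))) with h' | h'
    · exact h'
    · refine absurd (R_of' (Or.inr (Or.inl ⟨u, w, rfl, rfl, h⟩)) ?_) hR
      rw [dot_comm]; exact h'
  · intro h
    rcases T_total u w hne with h' | h'
    · exact h'
    · refine absurd (R_of (Or.inr (Or.inl ⟨w, u, rfl, rfl, h'⟩)) ?_) hR
      rw [dot_comm]; exact h

omit hX in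
lemma T_one {u w : Fin 17} (hne : u ≠ w) (hR : ¬ R r₁ X (Sum.inr u) (Sum.inr w)) :
    T u w ↔ dot (vec X (Sum.inr u)) (vec X (Sum.inr w)) = 1 := by
  constructor
  · intro h
    rcases zmod2 (dot (vec X (Sum.inr u)) (vec X (Sum.inr w))) with h' | h'
    · exact absurd (R_of (Or.inr (Or.inl ⟨u, w, rfl, rfl, h⟩)) h') hR
    · exact h'
  · intro h
    rcases T_total u w hne with h' | h'
    · exact h'
    · exact absurd (R_of' (Or.inr (Or.inl ⟨w, u, rfl, rfl, h'⟩)) h) hR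

lemma modules
    (h3 : ¬ ∃ Y : Fin 3 → Set (Fin n), ∀ v, ¬ Relation.TransGen
      (fun a b => (r₁ a b ∧ Even (Nat.card {i : Fin 3 // a ∈ Y i ∧ b ∈ Y i})) ∨
        (r₁ b a ∧ Odd (Nat.card {i : Fin 3 // a ∈ Y i ∧ b ∈ Y i}))) v v)
    (u u' w : Fin 17) (e : vec X (Sum.inr u : Fin n ⊕ Fin 17) = vec X (Sum.inr u'))
    (ne : vec X (Sum.inr w : Fin n ⊕ Fin 17) ≠ vec X (Sum.inr u)) : T u w ↔ T u' w := by
  obtain ⟨v, hv⟩ := spans hX h3 (vec X (Sum.inr w) - vec X (Sum.inr u)) (sub_ne_zero.2 ne)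
  rw [dot_sub] at hv
  have hne : u ≠ w := fun h => ne (by rw [h])
  have hne' : u' ≠ w := fun h => ne (by rw [e, h])
  have hJ : ∀ z : Fin 17, J r₁ (Sum.inl v) (Sum.inr z) :=
    fun z => Or.inr (Or.inr ⟨v, z, rfl, rfl⟩)
  rcases zmod2 (dot (vec X (Sum.inr w)) (vec X (Sum.inl v))) with hw | hw <;>
    rcases zmod2 (dot (vec X (Sum.inr u)) (vec X (Sum.inl v))) with hu | hu
  · rw [hw, hu] at hv; exact absurd (sub_self _) hv
  · -- w after v, u before v
    have hu' : dot (vec X (Sum.inr u')) (vec X (Sum.inl v)) = 1 := by rw [← e]; exact hu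
    have a1 : R r₁ X (Sum.inr u) (Sum.inl v) := R_of' (hJ u) hu
    have a2 : R r₁ X (Sum.inr u') (Sum.inl v) := R_of' (hJ u') hu'
    have a3 : R r₁ X (Sum.inl v) (Sum.inr w) := R_of (hJ w) (by rw [dot_comm]; exact hw)
    rw [T_zero hne (fun h => cyc3 hX a1 a3 h), T_zero hne' (fun h => cyc3 hX a2 a3 h), e]
  · have hu' : dot (vec X (Sum.inr u')) (vec X (Sum.inl v)) = 0 := by rw [← e]; exact hu
    have a1 : R r₁ X (Sum.inl v) (Sum.inr u) := R_of (hJ u) (by rw [dot_comm]; exact hu)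
    have a2 : R r₁ X (Sum.inl v) (Sum.inr u') := R_of (hJ u') (by rw [dot_comm]; exact hu')
    have a3 : R r₁ X (Sum.inr w) (Sum.inl v) := R_of' (hJ w) hw
    rw [T_one hne (fun h => cyc3 hX a3 a1 h), T_one hne' (fun h => cyc3 hX a3 a2 h), e]
  · rw [hw, hu] at hv; exact absurd (sub_self _) hv

lemma triangles (u w z : Fin 17) (e1 : vec X (Sum.inr u : Fin n ⊕ Fin 17) = vec X (Sum.inr w))
    (e2 : vec X (Sum.inr w : Fin n ⊕ Fin 17) = vec X (Sum.inr z)) (t1 : T u w) (t2 : T w z)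
    (t3 : T z u) : False := by
  have j1 : J r₁ (Sum.inr u) (Sum.inr w) := Or.inr (Or.inl ⟨u, w, rfl, rfl, t1⟩)
  have j2 : J r₁ (Sum.inr w) (Sum.inr z) := Or.inr (Or.inl ⟨w, z, rfl, rfl, t2⟩)
  have j3 : J r₁ (Sum.inr z) (Sum.inr u) := Or.inr (Or.inl ⟨z, u, rfl, rfl, t3⟩)
  rcases zmod2 (dot (vec X (Sum.inr z : Fin n ⊕ Fin 17)) (vec X (Sum.inr z))) with h | h
  · exact cyc3 hX (R_of j1 (by rw [e1, e2]; exact h)) (R_of j2 (by rw [e2]; exact h))
      (R_of j3 (by rw [e1, e2]; exact h))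
  · exact cyc3 hX (R_of' j3 (by rw [e1, e2]; exact h)) (R_of' j2 (by rw [e2]; exact h))
      (R_of' j1 (by rw [e1, e2]; exact h))

/-- a graph of inversion number more than three, joined to the tournament, has inversion number
more than four -/
theorem core
    (h3 : ¬ ∃ Y : Fin 3 → Set (Fin n), ∀ v, ¬ Relation.TransGen
      (fun a b => (r₁ a b ∧ Even (Nat.card {i : Fin 3 // a ∈ Y i ∧ b ∈ Y i})) ∨
        (r₁ b a ∧ Odd (Nat.card {i : Fin 3 // a ∈ Y i ∧ b ∈ Y i}))) v v) : False := by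
  classical
  obtain ⟨u, u', hne, he⟩ := Fintype.exists_ne_map_eq_of_card_lt
    (fun u : Fin 17 => vec X (Sum.inr u : Fin n ⊕ Fin 17)) (by
      rw [Fintype.card_fun, ZMod.card, Fintype.card_fin, Fintype.card_fin]; norm_num)
  have key := inj (fun u : Fin 17 => vec X (Sum.inr u : Fin n ⊕ Fin 17))
    (fun u u' w => modules hX h3 u u' w) (fun u w z => triangles hX u w z)
  have hne' : u.val ≠ u'.val := fun h => hne (Fin.ext h)
  rcases Nat.lt_or_gt_of_ne hne' with h | h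
  · exact key u u' h he
  · exact key u' u h he.symm

end

/-- the tournament has a cyclic triangle -/
lemma T_cyclic : ¬ ∃ X : Fin 0 → Set (Fin 17), ∀ v, ¬ Relation.TransGen
    (fun a b => (T a b ∧ Even (Nat.card {i : Fin 0 // a ∈ X i ∧ b ∈ X i})) ∨
      (T b a ∧ Odd (Nat.card {i : Fin 0 // a ∈ X i ∧ b ∈ X i}))) v v := by
  rintro ⟨X, hX⟩
  have hc : ∀ a b : Fin 17, Even (Nat.card {i : Fin 0 // a ∈ X i ∧ b ∈ X i}) := by
    intro a b
    rw [Nat.card_of_isEmpty]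
    exact ⟨0, rfl⟩
  have t1 : T 0 1 := Or.inl ⟨by decide, by decide⟩
  have t2 : T 1 2 := Or.inl ⟨by decide, by decide⟩
  have t3 : T 2 0 := Or.inr ⟨by decide, by decide, by decide⟩
  refine hX 0 (Relation.TransGen.tail (b := 2) (Relation.TransGen.tail (b := 1)
    (Relation.TransGen.single ?_) ?_) ?_)
  · exact Or.inl ⟨t1, hc 0 1⟩
  · exact Or.inl ⟨t2, hc 1 2⟩
  · exact Or.inl ⟨t3, hc 2 0⟩

/-- one inversion makes the tournament acyclic -/
lemma T_one_inversion : ∃ X : Fin 1 → Set (Fin 17), ∀ v, ¬ Relation.TransGen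
    (fun a b => (T a b ∧ Even (Nat.card {i : Fin 1 // a ∈ X i ∧ b ∈ X i})) ∨
      (T b a ∧ Odd (Nat.card {i : Fin 1 // a ∈ X i ∧ b ∈ X i}))) v v := by
  classical
  refine ⟨fun _ => {v | v.val % 2 = 0}, ?_⟩
  have hcard : ∀ a b : Fin 17, (((Nat.card {i : Fin 1 // a ∈ {v : Fin 17 | v.val % 2 = 0} ∧
      b ∈ {v : Fin 17 | v.val % 2 = 0}} : ℕ)) : ℕ) =
      if a.val % 2 = 0 ∧ b.val % 2 = 0 then 1 else 0 := by
    intro a b
    rw [Nat.card_eq_fintype_card, Fintype.card_subtype]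
    split_ifs with h
    · have : (Finset.univ.filter fun _ : Fin 1 => a ∈ {v : Fin 17 | v.val % 2 = 0} ∧
          b ∈ {v : Fin 17 | v.val % 2 = 0}) = Finset.univ :=
        Finset.filter_true_of_mem (fun _ _ => h)
      rw [this]; rfl
    · have : (Finset.univ.filter fun _ : Fin 1 => a ∈ {v : Fin 17 | v.val % 2 = 0} ∧
          b ∈ {v : Fin 17 | v.val % 2 = 0}) = ∅ :=
        Finset.filter_false_of_mem (fun _ _ => h)
      rw [this]; rfl
  have hlt : ∀ a b : Fin 17, ((T a b ∧ Even (Nat.card {i : Fin 1 //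
      a ∈ {v : Fin 17 | v.val % 2 = 0} ∧ b ∈ {v : Fin 17 | v.val % 2 = 0}})) ∨
      (T b a ∧ Odd (Nat.card {i : Fin 1 // a ∈ {v : Fin 17 | v.val % 2 = 0} ∧
      b ∈ {v : Fin 17 | v.val % 2 = 0}}))) → a.val < b.val := by
    intro a b h
    rw [hcard] at h
    rcases h with ⟨h, he⟩ | ⟨h, ho⟩
    · split_ifs at he with h'
      · exact absurd he (by decide)
      · rcases h with h | h
        · exact h.1
        · exact absurd ⟨h.2.1, h.2.2⟩ h'
    · split_ifs at ho with h'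
      · rcases h with h | h
        · exact absurd ⟨h'.2, h'.1⟩ h.2
        · exact h.1
      · exact absurd ho (by decide)
  intro v hv
  have : ∀ w, Relation.TransGen (fun a b : Fin 17 => (T a b ∧ Even (Nat.card {i : Fin 1 //
      a ∈ {v : Fin 17 | v.val % 2 = 0} ∧ b ∈ {v : Fin 17 | v.val % 2 = 0}})) ∨
      (T b a ∧ Odd (Nat.card {i : Fin 1 // a ∈ {v : Fin 17 | v.val % 2 = 0} ∧
      b ∈ {v : Fin 17 | v.val % 2 = 0}}))) v w → v.val < w.val := by
    intro w hw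
    induction hw with
    | single h => exact hlt _ _ h
    | tail _ h ih => exact lt_trans ih (hlt _ _ h)
  exact lt_irrefl _ (this v hv)

end Pool.Agent.K4H77.DJ
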